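import Pool.Agent.W544.HC.NonHom
import Pool.Agent.W544.HC.Ind

/-!
# The Homogeneity Conjecture fails for Finsler manifolds

`M = ℝ³ = ℂ × ℝ` carries the flat metric and the simply transitive group of the isometries
`(w, s) ↦ (z + exp(i t) w, s + t)`. In the invariant frame, with components `a, b` (in `ℂ`) and
`c` (in `ℝ`), put `F² = a² + b² + c² + a² c² / (10 (a² + b² + c²))`. Then `F` is at least the flat
norm, with equality on the vectors tangent to `ℂ`, so that the translations of `ℂ` still have
constant displacement for `F`. The isometries of the quotient by one of these translations preserve,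
up to sign, the vector field `∂_b`, which has closed orbits and non-closed orbits.
-/

set_option autoImplicit false

open scoped Manifold ContDiff Topology
open Set

noncomputable section

namespace Pool.Agent.Results.MP_6fe59b_gt.HomogeneityFails

open Pool.Agent.W544.HC

attribute [local instance] act

local instance : ProperlyDiscontinuousSMul (Multiplicative ℤ) E3 := act_covering.proper

local instance : ContinuousConstSMul (Multiplicative ℤ) E3 where
  continuous_const_smul g := (act_covering.smooth g).continuous

local instance : IsCancelSMul (Multiplicative ℤ) E3 where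
  right_cancel' g h x e := by
    have h1 : (h⁻¹ * g) • x = x := by rw [mul_smul, e, inv_smul_smul]
    have h2 := act_covering.free _ _ h1
    rw [inv_mul_eq_one] at h2
    exact h2.symm

/-- the quotient -/
abbrev Q : Type := MulAction.orbitRel.Quotient (Multiplicative ℤ) E3

/-- the projection -/
def pr : E3 → Q := Quotient.mk (MulAction.orbitRel (Multiplicative ℤ) E3)

lemma pr_surj : Function.Surjective pr := Quotient.mk_surjective

lemma pr_loc : IsLocalHomeomorph pr :=
  (isQuotientCoveringMap_quotientMk_of_properlyDiscontinuousSMul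
    (G := Multiplicative ℤ) (E := E3)).isCoveringMap.isLocalHomeomorph

lemma pr_eq (x y : E3) : pr x = pr y ↔ ∃ g : Multiplicative ℤ, g • x = y := by
  unfold pr
  rw [Quotient.eq]
  show x ∈ MulAction.orbit (Multiplicative ℤ) y ↔ _
  rw [MulAction.mem_orbit_symm]
  rfl

lemma pr_deck : FDeck FF pr := by
  intro x y hxy
  obtain ⟨g, hg⟩ := (pr_eq x y).1 hxy
  refine ⟨fun z => g • z, ?_, hg, ?_, act_covering.isometry g⟩
  · exact contMDiff_iff_contDiff.1 (act_covering.smooth g)
  · intro z
    exact ((pr_eq z (g • z)).2 ⟨g, rfl⟩).symm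

instance : ChartedSpace E3 Q := pr_loc.chartedSpace pr_surj

instance : IsManifold 𝓘(ℝ, E3) ∞ Q := quot_isManifold pr_loc pr_surj pr_deck.deck

lemma chart_Q (q : Q) : ∃ x : E3, chartAt E3 q = pr_loc.localInverseAt x := by
  refine ⟨sec pr_surj q, ?_⟩
  show (pr_loc.localInverseAt (sec pr_surj q)).trans (chartAt E3 (sec pr_surj q)) = _
  rw [chartAt_self_eq, OpenPartialHomeomorph.trans_refl]

/-- **The Homogeneity Conjecture fails for Finsler manifolds.** There is a homogeneous reversible
Finsler manifold `(M, F)`, with `M = ℝ³`, and a free and properly discontinuous action of the group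
`Γ = ℤ` on it by isometries, all of constant displacement, for which the quotient Finsler manifold
`(N, F') = Γ\(M, F)` is not homogeneous. -/
theorem result :
    ∃ (F : TangentBundle 𝓘(ℝ, ℝ × ℝ × ℝ) (ℝ × ℝ × ℝ) → ℝ)
      (_ : MulAction (Multiplicative ℤ) (ℝ × ℝ × ℝ))
      (N : Type) (_ : TopologicalSpace N) (_ : ChartedSpace (ℝ × ℝ × ℝ) N)
      (_ : IsManifold 𝓘(ℝ, ℝ × ℝ × ℝ) ∞ N)
      (F' : TangentBundle 𝓘(ℝ, ℝ × ℝ × ℝ) N → ℝ) (p : ℝ × ℝ × ℝ → N),
      IsFinsler F ∧ IsReversible F ∧ IsHomogeneous F ∧
      IsCoveringGroup (Multiplicative ℤ) F ∧ HasConstantDisplacements (Multiplicative ℤ) F ∧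
      T2Space N ∧ SecondCountableTopology N ∧ IsFinsler F' ∧
      IsQuotient (Multiplicative ℤ) F F' p ∧ ¬ IsHomogeneous F' := by
  have hq : IsQuotient (Multiplicative ℤ) FF (ind pr_loc pr_surj FF) pr :=
    { surjective := pr_surj
      fibre := pr_eq
      localDiffeo := f_localDiffeo pr_loc pr_deck.deck chart_Q
      induced := ind_induced pr_loc pr_surj chart_Q pr_deck }
  refine ⟨FF, act, Q, inferInstance, inferInstance, inferInstance, ind pr_loc pr_surj FF, pr,
    FF_finsler, FF_reversible, FF_homogeneous, act_covering, act_displacements, ?_, ?_,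
    ind_finsler pr_loc pr_surj chart_Q pr_deck FF_finsler, hq, not_homogeneous hq⟩
  · exact t2Space_of_properlyDiscontinuousSMul_of_t2Space
  · exact ContinuousConstSMul.secondCountableTopology

end Pool.Agent.Results.MP_6fe59b_gt.HomogeneityFails
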